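import Mathlib

set_option autoImplicit false

/-!
The identity `Φ_n(G,H) = r(G,H) - 2` fails for `n = r(G,H)` (and for some larger `n`) whenever all
degrees of `G` and `H` are at least two.  Indeed, if all degrees of `G` and `H` are at least `δ`,
then the vertices of a red copy of `G` have red degrees between `δ` and `n - 1`, and the vertices
of a blue copy of `H` have red degrees between `0` and `n - 1 - δ`, so every degree spread is at
most `n - 1 - δ`.  For `G = H = K₃` and `n = r(K₃,K₃) = 6` this gives `Φ_6 ≤ 3 < 4`.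
-/

namespace Pool.Agent.Results.MP_f2857b_co.MinDegreeTwo

open Finset

/-- The red degree of `v` in the red/blue colouring of `K_n` whose red edges form `R`. -/
noncomputable def redDeg {n : ℕ} (R : SimpleGraph (Fin n)) (v : Fin n) : ℕ :=
  (R.neighborSet v).ncard

/-- `X` is the vertex set of a copy of `G` in the graph `R`. -/
def IsCopy {W : Type} {n : ℕ} (G : SimpleGraph W) (R : SimpleGraph (Fin n)) (X : Set (Fin n)) :
    Prop :=
  ∃ f : W ↪ Fin n, (∀ a b, G.Adj a b → R.Adj (f a) (f b)) ∧ X = Set.range f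

/-- `X` is the vertex set of a red copy of `G` or of a blue copy of `H`. -/
def Admissible {W W' : Type} {n : ℕ} (G : SimpleGraph W) (H : SimpleGraph W')
    (R : SimpleGraph (Fin n)) (X : Set (Fin n)) : Prop :=
  IsCopy G R X ∨ IsCopy H Rᶜ X

/-- The Ramsey number `r(G,H)`: the least `N` such that every red/blue colouring of `K_N` contains
a red copy of `G` or a blue copy of `H`. -/
noncomputable def ramsey {W W' : Type} (G : SimpleGraph W) (H : SimpleGraph W') : ℕ :=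
  sInf {N | ∀ R : SimpleGraph (Fin N), ∃ X, Admissible G H R X}

/-- The degree spread of `X`: the largest difference of two red degrees of vertices of `X`. -/
noncomputable def spread {n : ℕ} (R : SimpleGraph (Fin n)) (X : Set (Fin n)) : ℕ :=
  sSup {k | ∃ u ∈ X, ∃ v ∈ X, k = redDeg R u - redDeg R v}

/-- The degree spread of a colouring: the minimum of the degree spreads of admissible sets. -/
noncomputable def colSpread {W W' : Type} {n : ℕ} (G : SimpleGraph W) (H : SimpleGraph W')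
    (R : SimpleGraph (Fin n)) : ℕ :=
  sInf {k | ∃ X, Admissible G H R X ∧ k = spread R X}

/-- `Φ_n(G,H)`: the maximum of the degree spreads of all red/blue colourings of `K_n`. -/
noncomputable def Phi {W W' : Type} (n : ℕ) (G : SimpleGraph W) (H : SimpleGraph W') : ℕ :=
  sSup {k | ∃ R : SimpleGraph (Fin n), k = colSpread G H R}

theorem redDeg_le {n : ℕ} (R : SimpleGraph (Fin n)) (v : Fin n) : redDeg R v ≤ n - 1 := by
  have h : R.neighborSet v ⊆ {v}ᶜ := by
    intro w hw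
    simp only [Set.mem_compl_iff, Set.mem_singleton_iff]
    rintro rfl
    exact R.loopless.irrefl _ hw
  have h2 := Set.ncard_le_ncard h (Set.toFinite _)
  rwa [Set.ncard_compl, Set.ncard_singleton, Nat.card_eq_fintype_card, Fintype.card_fin] at h2

theorem redDeg_add {n : ℕ} (R : SimpleGraph (Fin n)) (v : Fin n) :
    redDeg R v + redDeg Rᶜ v ≤ n - 1 := by
  unfold redDeg
  have hd : Disjoint (R.neighborSet v) (Rᶜ.neighborSet v) := by
    rw [Set.disjoint_left]
    intro w h1 h2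
    exact h2.2 h1
  rw [← Set.ncard_union_eq hd]
  have h : R.neighborSet v ∪ Rᶜ.neighborSet v ⊆ {v}ᶜ := by
    intro w hw
    simp only [Set.mem_compl_iff, Set.mem_singleton_iff]
    rintro rfl
    rcases hw with hw | hw
    · exact R.loopless.irrefl _ hw
    · exact Rᶜ.loopless.irrefl _ hw
  have h2 := Set.ncard_le_ncard h (Set.toFinite _)
  rwa [Set.ncard_compl, Set.ncard_singleton, Nat.card_eq_fintype_card, Fintype.card_fin] at h2

theorem le_redDeg {W : Type} {n : ℕ} (G : SimpleGraph W) (R : SimpleGraph (Fin n)) (δ : ℕ)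
    (hG : ∀ a, δ ≤ (G.neighborSet a).ncard) (f : W ↪ Fin n)
    (hf : ∀ a b, G.Adj a b → R.Adj (f a) (f b)) (a : W) : δ ≤ redDeg R (f a) := by
  refine (hG a).trans ?_
  rw [← Set.ncard_image_of_injective _ f.injective]
  apply Set.ncard_le_ncard _ (Set.toFinite _)
  rintro _ ⟨b, hb, rfl⟩
  exact hf a b hb

theorem Phi_le {W W' : Type} (n δ : ℕ) (G : SimpleGraph W) (H : SimpleGraph W')
    (hG : ∀ a, δ ≤ (G.neighborSet a).ncard) (hH : ∀ a, δ ≤ (H.neighborSet a).ncard) :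
    Phi n G H ≤ n - 1 - δ := by
  apply csSup_le'
  rintro _ ⟨R, rfl⟩
  unfold colSpread
  by_cases hne : ∃ X, Admissible G H R X
  · obtain ⟨X, hX⟩ := hne
    have hmem : spread R X ∈ {k | ∃ X, Admissible G H R X ∧ k = spread R X} := ⟨X, hX, rfl⟩
    refine (Nat.sInf_le hmem).trans ?_
    apply csSup_le'
    rintro _ ⟨u, hu, v, hv, rfl⟩
    rcases hX with ⟨f, hf, rfl⟩ | ⟨f, hf, rfl⟩
    · obtain ⟨a, rfl⟩ := hv
      have h1 := redDeg_le R u
      have h2 := le_redDeg G R δ hG f hf a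
      omega
    · obtain ⟨a, rfl⟩ := hu
      have h1 := redDeg_add R (f a)
      have h2 := le_redDeg H Rᶜ δ hH f hf a
      omega
  · have : {k | ∃ X, Admissible G H R X ∧ k = spread R X} = ∅ := by
      rw [Set.eq_empty_iff_forall_notMem]
      rintro k ⟨X, hX, -⟩
      exact hne ⟨X, hX⟩
    rw [this, Nat.sInf_empty]
    exact Nat.zero_le _

theorem mono_triangle {n : ℕ} (R : SimpleGraph (Fin n)) (a b c : Fin n) (hab : a ≠ b)
    (hac : a ≠ c) (hbc : b ≠ c) (h : (R.Adj a b ∧ R.Adj a c ∧ R.Adj b c)) :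
    ∃ X, IsCopy (⊤ : SimpleGraph (Fin 3)) R X := by
  have hinj : Function.Injective ![a, b, c] := by
    intro i j
    fin_cases i <;> fin_cases j <;> simp [hab, hac, hbc, hab.symm, hac.symm, hbc.symm]
  refine ⟨_, ⟨![a, b, c], hinj⟩, ?_, rfl⟩
  intro i j
  obtain ⟨h1, h2, h3⟩ := h
  fin_cases i <;> fin_cases j <;> simp [h1, h2, h3, h1.symm, h2.symm, h3.symm]

theorem pigeon (g : Fin 5 → Bool) : ∃ i j k : Fin 5, i < j ∧ j < k ∧ g i = g j ∧ g i = g k := by
  revert g
  decide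

theorem six (R : SimpleGraph (Fin 6)) :
    ∃ X, Admissible (⊤ : SimpleGraph (Fin 3)) (⊤ : SimpleGraph (Fin 3)) R X := by
  classical
  obtain ⟨i, j, k, hij, hjk, e1, e2⟩ := pigeon (fun i => decide (R.Adj 0 i.succ))
  have hik := hij.trans hjk
  have n1 : (0 : Fin 6) ≠ i.succ := (Fin.succ_ne_zero i).symm
  have n2 : (0 : Fin 6) ≠ j.succ := (Fin.succ_ne_zero j).symm
  have n3 : (0 : Fin 6) ≠ k.succ := (Fin.succ_ne_zero k).symm
  have m1 : i.succ ≠ j.succ := fun h => hij.ne (Fin.succ_injective _ h)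
  have m2 : i.succ ≠ k.succ := fun h => hik.ne (Fin.succ_injective _ h)
  have m3 : j.succ ≠ k.succ := fun h => hjk.ne (Fin.succ_injective _ h)
  have key : ∀ S : SimpleGraph (Fin 6), S.Adj 0 i.succ → S.Adj 0 j.succ → S.Adj 0 k.succ →
      (∃ X, IsCopy (⊤ : SimpleGraph (Fin 3)) S X) ∨
        (∃ X, IsCopy (⊤ : SimpleGraph (Fin 3)) Sᶜ X) := by
    intro S h1 h2 h3
    by_cases q1 : S.Adj i.succ j.succ
    · exact Or.inl (mono_triangle S _ _ _ n1 n2 m1 ⟨h1, h2, q1⟩)
    by_cases q2 : S.Adj i.succ k.succ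
    · exact Or.inl (mono_triangle S _ _ _ n1 n3 m2 ⟨h1, h3, q2⟩)
    by_cases q3 : S.Adj j.succ k.succ
    · exact Or.inl (mono_triangle S _ _ _ n2 n3 m3 ⟨h2, h3, q3⟩)
    exact Or.inr (mono_triangle Sᶜ _ _ _ m1 m2 m3 ⟨⟨m1, q1⟩, ⟨m2, q2⟩, ⟨m3, q3⟩⟩)
  by_cases h : R.Adj 0 i.succ
  · have h2 : R.Adj 0 j.succ := by simpa [h] using e1.symm
    have h3 : R.Adj 0 k.succ := by simpa [h] using e2.symm
    rcases key R h h2 h3 with ⟨X, hX⟩ | ⟨X, hX⟩
    · exact ⟨X, Or.inl hX⟩
    · exact ⟨X, Or.inr hX⟩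
  · have h2 : ¬ R.Adj 0 j.succ := by simpa [h] using e1.symm
    have h3 : ¬ R.Adj 0 k.succ := by simpa [h] using e2.symm
    rcases key Rᶜ ⟨n1, h⟩ ⟨n2, h2⟩ ⟨n3, h3⟩ with ⟨X, hX⟩ | ⟨X, hX⟩
    · exact ⟨X, Or.inr hX⟩
    · rw [compl_compl] at hX
      exact ⟨X, Or.inl hX⟩

/-- The cyclic colouring of at most five vertices. -/
def pent (N : ℕ) : SimpleGraph (Fin N) where
  Adj a b := a.val + 1 = b.val ∨ b.val + 1 = a.val ∨ a.val + 4 = b.val ∨ b.val + 4 = a.val
  symm := ⟨fun a b h => by omega⟩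
  loopless := ⟨fun a h => by omega⟩

theorem pent_free (N : ℕ) (hN : N < 6) :
    ¬ ∃ X, Admissible (⊤ : SimpleGraph (Fin 3)) (⊤ : SimpleGraph (Fin 3)) (pent N) X := by
  rintro ⟨X, ⟨f, hf, -⟩ | ⟨f, hf, -⟩⟩
  · have h1 := hf 0 1 (by simp)
    have h2 := hf 0 2 (by simp)
    have h3 := hf 1 2 (by simp)
    simp only [pent] at h1 h2 h3
    have a0 := (f 0).isLt
    have a1 := (f 1).isLt
    have a2 := (f 2).isLt
    omega
  · have h1 := hf 0 1 (by simp)
    have h2 := hf 0 2 (by simp)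
    have h3 := hf 1 2 (by simp)
    simp only [SimpleGraph.compl_adj, pent, Ne, Fin.ext_iff] at h1 h2 h3
    have a0 := (f 0).isLt
    have a1 := (f 1).isLt
    have a2 := (f 2).isLt
    omega

theorem ramsey_triangle : ramsey (⊤ : SimpleGraph (Fin 3)) (⊤ : SimpleGraph (Fin 3)) = 6 := by
  apply le_antisymm
  · exact Nat.sInf_le six
  · by_contra hlt
    push Not at hlt
    have hne : {N | ∀ R : SimpleGraph (Fin N), ∃ X,
        Admissible (⊤ : SimpleGraph (Fin 3)) (⊤ : SimpleGraph (Fin 3)) R X}.Nonempty := ⟨6, six⟩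
    exact pent_free _ hlt (Nat.sInf_mem hne (pent _))

theorem triangle_deg (a : Fin 3) : 2 ≤ ((⊤ : SimpleGraph (Fin 3)).neighborSet a).ncard := by
  have : (⊤ : SimpleGraph (Fin 3)).neighborSet a = {a}ᶜ := by
    ext b
    simp [eq_comm]
  rw [this, Set.ncard_compl, Set.ncard_singleton, Nat.card_eq_fintype_card, Fintype.card_fin]

/-- If all degrees of `G` and `H` are at least `δ` then `Φ_n(G,H) ≤ n - 1 - δ` for every `n`.
Hence, for `δ ≥ 2`, the identity `Φ_n(G,H) = r(G,H) - 2` fails for all `n` with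
`r(G,H) ≤ n ≤ r(G,H) + δ - 2`, in particular for `n = r(G,H)`.  For triangles `r = 6` and
`Φ_6(K₃,K₃) ≤ 3`, so the statement of Q1 is false. -/
theorem result :
    (∀ (W W' : Type) (G : SimpleGraph W) (H : SimpleGraph W') (δ : ℕ),
      (∀ a, δ ≤ (G.neighborSet a).ncard) → (∀ a, δ ≤ (H.neighborSet a).ncard) →
        (∀ n : ℕ, Phi n G H ≤ n - 1 - δ) ∧
        (3 ≤ ramsey G H → ∀ n : ℕ, ramsey G H ≤ n → n + 1 < ramsey G H + δ →
          Phi n G H < ramsey G H - 2)) ∧
    ramsey (⊤ : SimpleGraph (Fin 3)) (⊤ : SimpleGraph (Fin 3)) = 6 ∧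
    Phi 6 (⊤ : SimpleGraph (Fin 3)) (⊤ : SimpleGraph (Fin 3)) ≤ 3 ∧
    ¬ (∀ (W W' : Type) (_ : Finite W) (_ : Finite W') (G : SimpleGraph W) (H : SimpleGraph W'),
      (∀ a, ∃ b, G.Adj a b) → (∀ a, ∃ b, H.Adj a b) → (∃ a b, G.Adj a b) → (∃ a b, H.Adj a b) →
        ∀ n : ℕ, ramsey G H ≤ n → Phi n G H = ramsey G H - 2) := by
  have h6 : Phi 6 (⊤ : SimpleGraph (Fin 3)) (⊤ : SimpleGraph (Fin 3)) ≤ 3 :=
    Phi_le 6 2 _ _ triangle_deg triangle_deg
  refine ⟨?_, ramsey_triangle, h6, ?_⟩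
  · intro W W' G H δ hG hH
    refine ⟨fun n => Phi_le n δ G H hG hH, ?_⟩
    intro h3 n hn1 hn2
    have := Phi_le n δ G H hG hH
    omega
  · intro h
    have h1 : ∀ a : Fin 3, ∃ b, (⊤ : SimpleGraph (Fin 3)).Adj a b := by
      intro a
      exact ⟨a + 1, by simp⟩
    have := h (Fin 3) (Fin 3) inferInstance inferInstance ⊤ ⊤ h1 h1 ⟨0, h1 0⟩ ⟨0, h1 0⟩ 6
      ramsey_triangle.le
    rw [ramsey_triangle] at this
    omega

end Pool.Agent.Results.MP_f2857b_co.MinDegreeTwo
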